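import Pool.Agent.MP_4716e9_gt.CM.Crit

open Set Topology Filter Metric TopologicalSpace MeasureTheory

namespace Pool.Agent.MP_4716e9_gt.CM

universe u v

/-- the criterion with one countable set of colours -/
def CritC (X : Type v) [TopologicalSpace X] : Prop :=
  ∀ θ : Type u, ∃ (S : Type u) (_ : TopologicalSpace S) (_ : IsCompletelyMetrizableSpace S)
    (f : S → X), Continuous f ∧ ∀ c : Set S → θ, ∃ Θ : Set θ, Θ.Countable ∧
      ∀ x, ∃ s ∈ core c Θ, f s = x

/-- the weak Chang principle for all sets of colours -/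
def Chang : Prop :=
  ∀ θ : Type u, ∃ (L : Type u) (_ : LinearOrder L) (_ : WellFoundedLT L), ∀ F : List L → θ,
    ∃ Θ : Set θ, Θ.Countable ∧ ∀ (W : Type) [LinearOrder W] [WellFoundedLT W] [Countable W],
      ∃ e : W → L, StrictMono e ∧ ∀ l : List W, F (l.map e) ∈ Θ

theorem core_mono {S θ : Type u} [TopologicalSpace S] {c : Set S → θ} {Θ Θ' : Set θ}
    (h : Θ ⊆ Θ') : core c Θ ⊆ core c Θ' :=
  fun _ hs V hV => (hs V hV).imp fun _ b => ⟨b.1, b.2.1, h b.2.2⟩

theorem CritC.crit {X : Type v} [TopologicalSpace X] (h : CritC.{u} X) : Crit.{u} X := fun θ => by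
  obtain ⟨S, t, m, f, hf, h⟩ := h θ
  refine ⟨S, t, m, f, hf, fun c => ?_⟩
  obtain ⟨Θ, h1, h2⟩ := h c
  obtain ⟨u, hu⟩ := (h1.insert (c ∅)).exists_eq_range (insert_nonempty _ _)
  refine ⟨fun n ξ => {_x | ξ = u n}, fun _ _ => isOpen_const, fun n _ => ⟨univ, univ_mem,
    (finite_singleton (u n)).subset fun _ ⟨_, h, _⟩ => h⟩, fun x => (h2 x).imp fun s hs =>
      ⟨core_mono (fun ξ hξ => ?_) hs.1, hs.2⟩⟩
  obtain ⟨n, hn⟩ : ξ ∈ range u := hu ▸ mem_insert_of_mem _ hξ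
  exact ⟨n, hn.symm⟩

theorem critC_of (X : Type) [TopologicalSpace X] [MetrizableSpace X] [SecondCountableTopology X]
    (h : InDual.{u} X) : CritC.{u} X := fun θ => by
  let e : ULift.{u} X ≃ₜ X := Homeomorph.ulift
  have := e.isEmbedding.metrizableSpace
  have := e.isEmbedding.secondCountableTopology
  obtain ⟨D, d1, d2⟩ := exists_countable_dense (ULift.{u} X)
  let _ := metrizableSpaceMetric (ULift.{u} X)
  obtain ⟨S, t, m, f, hf, h⟩ := crit_of (ULift.{u} X) (fun Y _ _ hY =>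
    have := h Y hY
    (e.prodCongr (Homeomorph.refl Y)).symm.normalSpace) θ
  refine ⟨S, t, m, e ∘ f, e.continuous.comp hf, fun c => ?_⟩
  obtain ⟨O, o1, o2, o3⟩ := h c
  refine ⟨⋃ n, ⋃ d ∈ D, {ξ | d ∈ O n ξ}, countable_iUnion fun n => d1.biUnion fun d _ =>
    ((o2 n).point_finite d).countable, fun x => (o3 (e.symm x)).imp fun s hs =>
      ⟨core_mono (fun ξ hξ => ?_) hs.1, by simp [hs.2]⟩⟩
  obtain ⟨n, hn⟩ := hξ
  obtain ⟨d, a, b⟩ := d2.inter_open_nonempty _ (o1 n ξ) ⟨_, hn⟩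
  exact mem_iUnion.2 ⟨n, mem_iUnion₂.2 ⟨d, b, a⟩⟩

theorem extend {α : Type v} {r : α → α → Prop} (h : WellFounded r) :
    ∃ (L : Type v) (_ : LinearOrder L) (_ : WellFoundedLT L) (j : L ≃ α),
      ∀ a b, r a b → j.symm a < j.symm b :=
  have : IsWellFounded α r := ⟨h⟩
  ⟨α, IsWellFounded.wellOrderExtension r, IsWellFounded.wellOrderExtension.isWellFounded_lt r,
    Equiv.refl α, fun _ _ h => Prod.Lex.left _ _ (IsWellFounded.rank_lt_of_rel h)⟩

theorem chang_of (h : CritC.{u} {r : ℕ × ℕ → Bool | WellFounded fun a b => r (a, b) = true}) :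
    Chang.{u} := fun θ => by
  obtain ⟨S, _, _, f, hf, h⟩ := h (Set θ)
  let _ := upgradeIsCompletelyMetrizable S
  let R : Set S × ℕ × ℕ → Set S × ℕ × ℕ → Prop := fun p q => q.2.1 < p.2.1 ∧ p.1.Nonempty ∧
    closure p.1 ⊆ q.1 ∧ (∀ a ∈ p.1, ∀ b ∈ p.1, dist a b ≤ (1 / 2) ^ p.2.1) ∧
      ∀ s ∈ p.1, (f s).1 (p.2.2, q.2.2) = true
  have wf : WellFounded R := wellFounded_iff_isEmpty_descending_chain.2 ⟨fun ⟨p, hp⟩ => by
    choose s hs using fun n => (hp n).2.1
    have sub : ∀ n, (p (n + 1)).1 ⊆ (p n).1 := fun n => subset_closure.trans (hp n).2.2.1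
    have anti : Antitone fun n => (p n).1 := antitone_nat_of_succ_le sub
    have le : ∀ n, n ≤ (p n).2.1 := fun n =>
      (strictMono_nat_of_lt_succ fun n => (hp n).1).le_apply
    obtain ⟨a, ha⟩ := cauchySeq_tendsto_of_complete (cauchySeq_of_le_geometric (1 / 2) 1
      (by norm_num) (f := s) fun n => ((hp n).2.2.2.1 _ (hs n) _ (sub _ (hs (n + 1)))).trans
        (by rw [one_mul]
            exact pow_le_pow_of_le_one (by norm_num) (by norm_num) ((Nat.le_succ n).trans (le _))))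
    have : ∀ n, a ∈ (p n).1 := fun n => (hp n).2.2.1 (mem_closure_of_tendsto ha
      (eventually_atTop.2 ⟨n, fun k hk => anti (Nat.succ_le_succ hk) (hs k)⟩))
    exact (wellFounded_iff_isEmpty_descending_chain.1 (f a).2).false
      ⟨fun n => (p n).2.2, fun n => (hp n).2.2.2.2 a (this _)⟩⟩
  obtain ⟨L, lo, wo, j, hR⟩ := extend wf
  refine ⟨L, lo, wo, fun F => ?_⟩
  choose ρ r1 r2 using fun (W : Set S) (k : ℕ) => wo.wf.has_min
    {p : L | W ⊆ (j p).1 ∧ (j p).2.2 = k} ⟨j.symm (W, 0, k), by simp⟩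
  obtain ⟨Θ, t1, t2⟩ := h fun W => range fun l : List ℕ => F (l.map (ρ W))
  refine ⟨⋃ γ ∈ {γ ∈ Θ | γ.Countable}, γ, (t1.mono (sep_subset _ _)).biUnion fun _ h => h.2,
    fun W _ _ _ => ?_⟩
  obtain ⟨σ, hσ⟩ := exists_surjective_nat (WithTop W)
  choose ι hι using fun w : W => hσ w
  obtain ⟨s, s1, s2⟩ := t2 ⟨fun p => decide (σ p.1 < σ p.2), by
    simpa using (show WellFounded fun a b => σ a < σ b from InvImage.wf σ wellFounded_lt)⟩
  choose e e1 e2 using fun k : ℕ => wo.wf.has_min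
    {p : L | (j p).1 ∈ 𝓝 s ∧ (j p).2.2 = k} ⟨j.symm (univ, 0, k), by simp⟩
  refine ⟨e ∘ ι, fun a b hab => ?_, fun l => ?_⟩
  · have c : {s' | (f s').1 (ι a, ι b) = true} ∈ 𝓝 s := (isOpen_discrete {true}).preimage
      ((continuous_apply _).comp (continuous_subtype_val.comp hf)) |>.mem_nhds (by
        show (f s).1 _ = true
        simpa [s2, hι] using hab)
    obtain ⟨B, ⟨b1, b2⟩, b3⟩ := (closed_nhds_basis s).mem_iff.1 (inter_mem (e1 (ι b)).1
      (inter_mem c (ball_mem_nhds s (show 0 < (1 / 2 : ℝ) ^ ((j (e (ι b))).2.1 + 1) / 2 by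
        positivity))))
    refine (not_lt.1 (e2 (ι a) (j.symm (B, (j (e (ι b))).2.1 + 1, ι a))
      (by simpa using b1))).trans_lt ((hR _ (j (e (ι b))) ⟨Nat.lt_succ_self _,
        ⟨s, mem_of_mem_nhds b1⟩, fun x hx => (b3 (b2.closure_subset hx)).1, fun x hx y hy => ?_,
        fun x hx => (e1 (ι b)).2.symm ▸ (b3 hx).2.1⟩).trans_eq (j.symm_apply_apply _))
    linarith [dist_triangle_right x y s, mem_ball.1 (b3 hx).2.2, mem_ball.1 (b3 hy).2.2]
  · obtain ⟨B, b1, b2, b3⟩ := s1 (⋂ a ∈ l.toFinset, (j (e (ι a))).1)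
      ((biInter_finset_mem _).2 fun a _ => (e1 _).1)
    refine mem_iUnion₂.2 ⟨_, ⟨b3, countable_range _⟩, l.map ι, congrArg F ?_⟩
    rw [List.map_map]
    exact List.map_congr_left fun a ha => le_antisymm
      (not_lt.1 (r2 B (ι a) _ ⟨fun x hx => mem_iInter₂.1 (b2 hx) a
        (List.mem_toFinset.2 ha), (e1 _).2⟩))
      (not_lt.1 (e2 (ι a) _ ⟨mem_of_superset b1 (r1 B _).1, (r1 B _).2⟩))

theorem critC_of_chang (h : Chang.{u}) {P Z : Type} [TopologicalSpace P] [PolishSpace P]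
    [TopologicalSpace Z] {C : Set P} {g : P → Z} (hC : AnalyticSet Cᶜ) (hg : ContinuousOn g C) :
    CritC.{u} (g '' C) := fun θ => by
  obtain ⟨β, _, _, k, hk, hr⟩ := analyticSet_iff_exists_polishSpace_range.1 hC
  let _ := upgradeIsCompletelyMetrizable β
  let _ := upgradeIsCompletelyMetrizable P
  obtain ⟨D, d1, d2⟩ := exists_countable_dense β
  have := d1.to_subtype
  obtain ⟨L, _, _, hL⟩ := h (Set θ)
  let _ : TopologicalSpace L := ⊥
  have : DiscreteTopology L := ⟨rfl⟩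
  let R : P → ℕ × D → ℕ × D → Prop := fun x a b => a.1 = b.1 + 1 ∧
    dist (b.2 : β) a.2 ≤ (1 / 2) ^ b.1 ∧ dist (k a.2) x < 1 / (a.1 + 1 : ℝ)
  let S := {q : P × (ℕ × D → L) | ∀ a b, R q.1 a b → q.2 a < q.2 b}
  have hS : IsClosed S := by
    simp only [S, ofPred_forall, imp_iff_not_or]
    exact isClosed_iInter fun a => isClosed_iInter fun b => IsClosed.union
      (isOpen_const.inter (isOpen_const.inter (isOpen_lt
        (continuous_const.dist continuous_fst) continuous_const))).isClosed_compl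
      ((isClosed_discrete {p : L × L | p.1 < p.2}).preimage (f := fun q : P × (ℕ × D → L) =>
        (q.2 a, q.2 b)) (by fun_prop))
  have mem : ∀ q : S, q.1.1 ∈ C := fun q => not_not.1 fun hq => by
    obtain ⟨w, hw⟩ : q.1.1 ∈ range k := hr.symm ▸ hq
    choose d a1 a2 using fun n : ℕ => d2.inter_nhds_nonempty (inter_mem (ball_mem_nhds w
      (show 0 < (1 / 2 : ℝ) ^ n / 2 by positivity))
      (hk.tendsto w (ball_mem_nhds _ (Nat.one_div_pos_of_nat (n := n)))))
    refine (wellFounded_iff_isEmpty_descending_chain.1 wellFounded_lt).false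
      ⟨fun n => q.1.2 (n, ⟨d n, a1 n⟩), fun n => q.2 _ _ ⟨rfl, ?_, hw ▸ (a2 (n + 1)).2⟩⟩
    have := pow_le_pow_of_le_one (show (0 : ℝ) ≤ 1 / 2 by norm_num) (by norm_num)
      (n.le_add_right 1)
    show dist (d n) (d (n + 1)) ≤ (1 / 2) ^ n
    linarith [dist_triangle_right (d n) (d (n + 1)) w, mem_ball.1 (a2 n).1,
      mem_ball.1 (a2 (n + 1)).1]
  refine ⟨S, inferInstance, hS.isCompletelyMetrizableSpace, fun q => ⟨g q.1.1, _, mem q, rfl⟩,
    (hg.comp_continuous (by fun_prop) mem).subtype_mk _, fun c => ?_⟩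
  obtain ⟨Θ, t1, t2⟩ := hL fun v => (fun p : Set P × List (ℕ × D) =>
    c {q | q.1.1 ∈ p.1 ∧ p.2.map q.1.2 = v}) '' (countableBasis P ×ˢ univ)
  refine ⟨⋃ γ ∈ {γ ∈ Θ | γ.Countable}, γ, (t1.mono (sep_subset _ _)).biUnion fun _ h => h.2, ?_⟩
  rintro ⟨_, x, hx, rfl⟩
  have wf : WellFounded (R x) := wellFounded_iff_isEmpty_descending_chain.2 ⟨fun ⟨p, hp⟩ => by
    have le : ∀ n, n ≤ (p n).1 := fun n => (strictMono_nat_of_lt_succ (f := fun n => (p n).1)
      fun n => (Nat.lt_succ_self _).trans_eq (hp n).1.symm).le_apply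
    obtain ⟨a, ha⟩ := cauchySeq_tendsto_of_complete (cauchySeq_of_le_geometric (1 / 2) 1
      (by norm_num) (f := fun n => ((p n).2 : β)) fun n => (hp n).2.1.trans
        (by rw [one_mul]
            exact pow_le_pow_of_le_one (by norm_num) (by norm_num) (le _)))
    refine (hr.subset ⟨a, tendsto_nhds_unique ((hk.tendsto a).comp
      (ha.comp (tendsto_add_atTop_nat 1))) (tendsto_iff_dist_tendsto_zero.2 (squeeze_zero
        (fun _ => dist_nonneg) (fun n => (hp n).2.2.le.trans (Nat.one_div_le_one_div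
          ((Nat.le_succ n).trans (le _)))) tendsto_one_div_add_atTop_nhds_zero_nat))⟩) hx⟩
  obtain ⟨W, _, _, j, hR⟩ := extend wf
  have := j.injective.countable
  obtain ⟨e', e1, e2⟩ := t2 W
  let e := e' ∘ j.symm
  replace e2 : ∀ l : List (ℕ × D), _ := fun l => List.map_map ▸ e2 (l.map j.symm)
  refine ⟨⟨(x, e), fun a b h => e1 (hR a b h)⟩, fun V hV => ?_, rfl⟩
  obtain ⟨V', v1, v2⟩ := (mem_nhds_subtype _ _ _).1 hV
  obtain ⟨a, ha, b, hb, v3⟩ := mem_nhds_prod_iff.1 v1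
  obtain ⟨O, o1, o2, o3⟩ := (isBasis_countableBasis P).mem_nhds_iff.1 ha
  obtain ⟨I, t, i1, i2⟩ := mem_pi'.1 (nhds_pi (A := fun _ : ℕ × D => L) ▸ hb)
  refine ⟨_, ?_, fun q hq => v2 (v3 ⟨o3 hq.1, i2 fun i hi => ?_⟩), mem_iUnion₂.2
    ⟨_, ⟨e2 I.toList, ((countable_countableBasis P).prod countable_univ).image _⟩,
      (O, I.toList), ⟨o1, trivial⟩, rfl⟩⟩
  · refine mem_of_superset (inter_mem ((continuous_fst.comp continuous_subtype_val).tendsto _
      ((isOpen_of_mem_countableBasis o1).mem_nhds o2)) ((biInter_finset_mem I).2 fun i _ =>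
        ((continuous_apply i).comp (continuous_snd.comp continuous_subtype_val)).tendsto _
          ((isOpen_discrete {e i}).mem_nhds rfl))) fun q hq => ⟨hq.1, ?_⟩
    exact List.map_congr_left fun i hi => mem_iInter₂.1 hq.2 i (Finset.mem_toList.1 hi)
  · exact (List.map_inj_left.1 hq.2 i (Finset.mem_toList.2 hi)).symm ▸ mem_of_mem_nhds (i1 i)

theorem wf_coanalytic :
    AnalyticSet {r : ℕ × ℕ → Bool | WellFounded fun a b => r (a, b) = true}ᶜ := by
  have : IsClosed {q : (ℕ × ℕ → Bool) × (ℕ → ℕ) | ∀ n, q.1 (q.2 (n + 1), q.2 n) = true} := by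
    simp only [ofPred_forall]
    refine isClosed_iInter fun n => isClosed_eq ?_ continuous_const
    exact (continuous_prod_of_discrete_right (f := fun q : (ℕ × ℕ → Bool) × ℕ × ℕ => q.1 q.2) |>.2
      fun p => continuous_apply p).comp
      (f := fun q : (ℕ × ℕ → Bool) × (ℕ → ℕ) => (q.1, (q.2 (n + 1), q.2 n))) (by fun_prop)
  have : PolishSpace ((ℕ × ℕ → Bool) × (ℕ → ℕ)) := {}
  convert (IsClosed.analyticSet ‹_›).image_of_continuous continuous_fst using 1
  ext r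
  simp [wellFounded_iff_isEmpty_descending_chain]

end Pool.Agent.MP_4716e9_gt.CM
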