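import Pool.Agent.MP_4716e9_gt.CM.Test

open Set Topology Filter Metric TopologicalSpace Pool.Agent.MP_4716e9_gt.NN

namespace Pool.Agent.MP_4716e9_gt.CM

universe u v

theorem crit_of (X : Type u) [MetricSpace X] (h : InDual.{u} X) : Crit.{u} X := by
  intro θ
  by_contra hb
  let Φ : (Set θ → Set X) → Prop := fun φ => ∀ O : ℕ → θ → Set X, (∀ n ξ, IsOpen (O n ξ)) →
    (∀ n, LocallyFinite (O n)) → ∃ x, x ∉ φ {ξ | ∃ n, x ∈ O n ξ}
  obtain ⟨φ, f1, f2⟩ : ∃ φ, Φ φ ∧ ∀ (S : Type u) (_ : TopologicalSpace S)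
      (_ : IsCompletelyMetrizableSpace S) (f : S → X), Continuous f →
      ∃ c : Set S → θ, ∀ Θ, ∀ s ∈ core c Θ, f s ∈ φ Θ := by
    by_contra hn
    push Not at hn
    choose S tS cS f hf hS using fun a : {φ // Φ φ} => hn a.1 a.2
    refine hb ⟨Σ a, S a, inferInstance, inferInstance, fun s => f s.1 s.2,
      continuous_sigma hf, fun c => ?_⟩
    by_contra hc
    let a : {φ // Φ φ} := ⟨fun Θ => (fun s => f s.1 s.2) '' core c Θ, fun O o1 o2 => by
      by_contra hx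
      exact hc ⟨O, o1, o2, fun x => not_not.1 fun e => hx ⟨x, e⟩⟩⟩
    obtain ⟨Θ, s, s1, s2⟩ := hS a fun W => c (Sigma.mk a '' W)
    refine s2 ⟨⟨a, s⟩, fun V hV => ?_, rfl⟩
    obtain ⟨B, b1, b2, b3⟩ := s1 _ (continuous_sigmaMk.tendsto s hV)
    exact ⟨_, isOpenMap_sigmaMk.image_mem_nhds b1, image_subset_iff.2 b2, b3⟩
  obtain ⟨Z, _, _, e, he⟩ : ∃ (Z : Type u) (_ : MetricSpace Z) (_ : CompleteSpace Z) (e : X → Z),
      IsEmbedding e := ⟨UniformSpace.Completion X, inferInstance, inferInstance, _,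
    (UniformSpace.Completion.isUniformEmbedding_coe X).isEmbedding⟩
  let I := {p : Set θ × X // p.2 ∉ φ p.1}
  let J : Set I → Prop := fun E => ∃ O : ℕ → θ → Set X, (∀ n ξ, IsOpen (O n ξ)) ∧
    (∀ n, LocallyFinite (O n)) ∧ ∀ i ∈ E, ∃ n ξ, i.1.2 ∈ O n ξ ∧ ξ ∉ i.1.1
  have one : ∀ ξ0, J {i | ξ0 ∉ i.1.1} := fun ξ0 => ⟨fun _ ξ => {_x | ξ = ξ0},
    fun _ _ => isOpen_const, fun _ _ => ⟨univ, univ_mem, (finite_singleton ξ0).subset
      fun _ ⟨_, h, _⟩ => h⟩, fun i hi => ⟨0, ξ0, rfl, hi⟩⟩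
  have hJ : Id2 (fun i : I => e i.1.2) (range e) J :=
    { mem := fun i => ⟨_, rfl⟩
      empty := ⟨fun _ _ => ∅, fun _ _ => isOpen_empty, fun _ _ => ⟨univ, univ_mem, by simp⟩, by simp⟩
      mono := fun h ⟨O, o1, o2, o3⟩ => ⟨O, o1, o2, fun i hi => o3 i (h hi)⟩
      iUnion := fun A h => by
        choose O o1 o2 o3 using h
        refine ⟨fun n => O n.unpair.1 n.unpair.2, fun _ => o1 _ _, fun _ => o2 _ _, fun i hi => ?_⟩
        obtain ⟨m, hm⟩ := mem_iUnion.1 hi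
        obtain ⟨n, ξ, h⟩ := o3 m i hm
        exact ⟨m.pair n, ξ, by simpa using h⟩
      lf := fun Q E q1 q2 h => by
        choose O o1 o2 o3 using h
        refine ⟨fun n ξ => ⋃ a, e ⁻¹' Q a ∩ O a n ξ, fun n ξ => isOpen_iUnion fun a =>
          ((q1 a).preimage he.continuous).inter (o1 a n ξ), fun n x => ?_, fun i hi => ?_⟩
        · obtain ⟨V, v1, v2⟩ := q2.preimage_continuous he.continuous x
          choose W w1 w2 using fun a => o2 a n x
          refine ⟨V ∩ ⋂ a ∈ {a | (e ⁻¹' Q a ∩ V).Nonempty}, W a,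
            inter_mem v1 ((biInter_mem v2).2 fun a _ => w1 a),
            (v2.biUnion fun a _ => w2 a).subset fun ξ ⟨y, y1, y2, y3⟩ => ?_⟩
          obtain ⟨a, a1, a2⟩ := mem_iUnion.1 y1
          exact mem_iUnion₂.2 ⟨a, ⟨y, a1, y2⟩, y, a2, mem_iInter₂.1 y3 a ⟨y, a1, y2⟩⟩
        · obtain ⟨a, a1, a2⟩ := mem_iUnion.1 hi
          obtain ⟨n, ξ, h1, h2⟩ := o3 a i a1
          exact ⟨n, ξ, mem_iUnion.2 ⟨a, a2, h1⟩, h2⟩ }
  have cov : ∀ (T : Type u) [TopologicalSpace T] [IsCompletelyMetrizableSpace T],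
      Cov (fun i : I => e i.1.2) (range e) J T := fun T _ _ S hS hP => by
    let g : {q : T × X // (q.1, e q.2) ∈ S} → T × Z := fun q => (q.1.1, e q.1.2)
    have hg : IsClosedEmbedding g :=
      ⟨(IsEmbedding.id.prodMap he).comp IsEmbedding.subtypeVal, by
        convert hS
        refine Subset.antisymm (range_subset_iff.2 fun q => q.2) fun q hq => ?_
        obtain ⟨x, hx⟩ := hP q hq
        exact ⟨⟨(q.1, x), hx.symm ▸ hq⟩, Prod.ext rfl hx⟩⟩
    obtain ⟨c, hc⟩ := f2 _ _ hg.IsCompletelyMetrizableSpace (fun q => q.1.2) (by fun_prop)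
    refine ⟨fun W => {i | c (g ⁻¹' W) ∉ i.1.1}, fun W => one _, fun t i hi => ?_⟩
    obtain ⟨V, hV⟩ := not_forall.1 fun d => i.2 (hc i.1.1 ⟨(t, i.1.2), hi⟩ d)
    push Not at hV
    obtain ⟨V', v1, v2⟩ := mem_comap.1 (hg.isInducing.nhds_eq_comap _ ▸ hV.1)
    exact ⟨V', v1, fun W w1 w2 => hV.2 _ (hg.continuous.tendsto _ w1)
      ((preimage_mono w2).trans v2)⟩
  have := h (TY hJ) fun M _ _ =>
    let _ := upgradeIsCompletelyMetrizable M
    normalTY hJ M (cov M)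
  obtain ⟨O, o1, o2, o3⟩ := univ_mem_J hJ he.isInducing rfl (cov PUnit)
  obtain ⟨x, hx⟩ := f1 O o1 o2
  obtain ⟨n, ξ, h1, h2⟩ := o3 ⟨(_, x), hx⟩ trivial
  exact h2 ⟨n, h1⟩

theorem inDual_of (X : Type v) [PseudoMetricSpace X] (h : Crit.{u} X) : InDual.{u} X := by
  intro Y _ _ hY
  suffices h : ∀ H : Bool → Set (X × Y), (∀ b, IsClosed (H b)) → Disjoint (H false) (H true) →
      HasSeparatingCover (H false) (H true) from ⟨fun s t hs ht hd =>
    hasSeparatingCovers_iff_separatedNhds.1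
      ⟨h (fun b => cond b t s) (by rintro (_ | _) <;> assumption) hd,
        h (fun b => cond b s t) (by rintro (_ | _) <;> assumption) hd.symm⟩⟩
  intro H hH hd
  obtain ⟨S, _, _, f, hf, hS⟩ := h (ℕ → Set Y)
  have := hY S
  have := hY (ℝ × S)
  have : NormalSpace (ℝ × S × Y) := (Homeomorph.prodAssoc ℝ S Y).normalSpace
  have := hY PUnit
  have : NormalSpace Y := (Homeomorph.punitProd Y).normalSpace
  let W : ℕ → Set (S × Y) := fun m => interior
    {q | ∀ x ∈ closedBall (f q.1) (1 / (m.div2 + 1 : ℝ)), (x, q.2) ∉ H m.bodd}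
  obtain ⟨𝓔, e1, e2, e3⟩ := shr_acc ℝ (S × Y) (fun _ => univ) W (fun _ => isOpen_univ)
    (fun _ => isOpen_interior) fun _ q => by
      obtain ⟨b, hb⟩ : ∃ b, (f q.1, q.2) ∉ H b := by
        by_cases h : (f q.1, q.2) ∈ H false
        · exact ⟨true, disjoint_left.1 hd h⟩
        · exact ⟨false, h⟩
      obtain ⟨a, ha, n, hn, h⟩ := mem_nhds_prod_iff.1 ((hH b).isOpen_compl.mem_nhds hb)
      obtain ⟨ε, hε, h'⟩ := Metric.mem_nhds_iff.1 ha
      obtain ⟨k, hk⟩ := exists_nat_one_div_lt (half_pos hε)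
      refine ⟨Nat.bit b k, trivial, mem_interior_iff_mem_nhds.2 (mem_of_superset (prod_mem_nhds
        (hf.tendsto q.1 (ball_mem_nhds _ (half_pos hε))) hn) fun r hr x hx => ?_)⟩
      rw [Nat.div2_bit] at hx
      rw [Nat.bodd_bit]
      refine h (a := (x, r.2)) ⟨h' (mem_ball.2 ?_), hr.2⟩
      linarith [dist_triangle x (f r.1) (f q.1), mem_ball.1 hr.1, mem_closedBall.1 hx]
  obtain ⟨u, hu⟩ := (e1.insert (0, ∅)).exists_eq_range (insert_nonempty _ _)
  choose G G1 G2 G3 using fun m => normal_exists_closure_subset (s := (u m).2) (t := W (u m).1)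
    (by rcases (hu ▸ mem_range_self m : u m ∈ insert _ 𝓔) with e | e
        exacts [e ▸ isClosed_empty, (e2 _ e).1]) isOpen_interior
    (by rcases (hu ▸ mem_range_self m : u m ∈ insert _ 𝓔) with e | e
        exacts [e ▸ empty_subset _, (e2 _ e).2])
  obtain ⟨O, o1, o2, o3⟩ := hS fun B m => ⋂ s ∈ B, Prod.mk s ⁻¹' closure (G m)
  obtain ⟨B, b1, b2, b3⟩ := lfBase X
  let g : Set X → Set Y := fun A => interior {y | ∀ x ∈ closure A, (x, y) ∉ H true}
  choose K k1 k2 k3 using fun (A : Set X) (F : Set Y) (h : IsClosed F ∧ F ⊆ g A) =>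
    normal_exists_closure_subset h.1 isOpen_interior h.2
  refine hasSep (range fun k : ℕ × ℕ × ℕ =>
    ⋃ p : {p : X × (ℕ → Set Y) // IsClosed (p.2 k.2.2) ∧ p.2 k.2.2 ⊆ g (B k.1 p.1)},
      (B k.1 p.1.1 ∩ O k.2.1 p.1.2) ×ˢ K _ _ p.2) (countable_range _) ?_ ?_
  · rintro ⟨x, y⟩ hq
    obtain ⟨s, hs, rfl⟩ := o3 x
    obtain ⟨e, a1, -, a2⟩ := e3 0 (inferInstanceAs (𝓝[≠] (0 : ℝ)).NeBot) (s, y)
    obtain ⟨m, rfl⟩ : e ∈ range u := hu ▸ mem_insert_of_mem _ a1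
    obtain ⟨A, c1, c2, n, c3⟩ := hs _ ((Continuous.prodMk_left y).tendsto s
      ((G1 m).mem_nhds (G2 m a2)))
    obtain ⟨k, a, c4, c5⟩ := b3 (f s) _ (closedBall_mem_nhds (f s)
      (Nat.one_div_pos_of_nat (n := (u m).1.div2)))
    have hb : (u m).1.bodd = true := by
      by_contra c
      exact interior_subset (G3 m (subset_closure (G2 m a2))) _
        (mem_closedBall_self Nat.one_div_pos_of_nat.le) (Bool.eq_false_iff.2 c ▸ hq)
    refine ⟨_, ⟨(k, n, m), rfl⟩, mem_iUnion.2 ⟨⟨(a, _), isClosed_biInter fun s _ =>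
      isClosed_closure.preimage (Continuous.prodMk_right s), fun y' hy => ?_⟩, ⟨c4, c3⟩,
        k2 _ _ _ (mem_iInter₂.2 fun s' hs' => subset_closure (c2 hs'))⟩⟩
    refine mem_interior_iff_mem_nhds.2 (mem_of_superset ((Continuous.prodMk_right s).tendsto y'
      (mem_interior_iff_mem_nhds.1 (G3 m (mem_iInter₂.1 hy s (mem_of_mem_nhds c1)))))
      fun y'' h x hx => hb ▸ h x (c5 hx))
  · rintro _ ⟨k, rfl⟩
    refine lfSep (((lf2 (b2 k.1) (o2 k.2.1)).comp_injective Subtype.val_injective).prod_right _)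
      fun p => ⟨((b1 _ _).inter (o1 _ _)).prod (k1 _ _ _), disjoint_left.2 fun q c d => ?_⟩
    rw [closure_prod_eq] at c
    exact interior_subset (k3 _ _ _ c.2) q.1 (closure_mono inter_subset_left c.1) d

end Pool.Agent.MP_4716e9_gt.CM
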