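import Mathlib

open Set Topology TopologicalSpace

namespace Pool.Agent.MP_4716e9_gt.CM

universe u v

/-- `X × Y` is normal for every T1 space `Y` whose product with each completely metrizable space
is normal. -/
def InDual (X : Type v) [TopologicalSpace X] : Prop :=
  ∀ (Y : Type u) [TopologicalSpace Y] [T1Space Y],
    (∀ (M : Type u) [TopologicalSpace M] [IsCompletelyMetrizableSpace M], NormalSpace (M × Y)) →
      NormalSpace (X × Y)

end Pool.Agent.MP_4716e9_gt.CM
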