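import Pool.Agent.MP_4716e9_gt.CM.Defs

open Set Topology TopologicalSpace

namespace Pool.Agent.MP_4716e9_gt.CM

universe u v

/-- The points that have arbitrarily small neighbourhoods with a colour in `Θ`. -/
def core {S θ : Type u} [TopologicalSpace S] (c : Set S → θ) (Θ : Set θ) : Set S :=
  {s | ∀ V ∈ 𝓝 s, ∃ B ∈ 𝓝 s, B ⊆ V ∧ c B ∈ Θ}

/-- For each set of colours some completely metrizable space maps continuously to `X` so that,
however its subsets are coloured, every point of `X` is the image of a point of the core for the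
colours that a sequence of locally finite open families assigns to it. -/
def Crit (X : Type v) [TopologicalSpace X] : Prop :=
  ∀ θ : Type u, ∃ (S : Type u) (_ : TopologicalSpace S) (_ : IsCompletelyMetrizableSpace S)
    (f : S → X), Continuous f ∧ ∀ c : Set S → θ, ∃ O : ℕ → θ → Set X,
      (∀ n ξ, IsOpen (O n ξ)) ∧ (∀ n, LocallyFinite (O n)) ∧
        ∀ x, ∃ s ∈ core c {ξ | ∃ n, x ∈ O n ξ}, f s = x

end Pool.Agent.MP_4716e9_gt.CM
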