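import Pool.Agent.MP_4716e9_gt.NN.B
import Pool.Agent.MP_4716e9_gt.CM.Defs2

open Set Topology Filter Metric TopologicalSpace Pool.Agent.MP_4716e9_gt.NN

namespace Pool.Agent.MP_4716e9_gt.CM

universe u v

theorem lfBase (T : Type v) [PseudoMetricSpace T] : ∃ B : ℕ → T → Set T, (∀ k a, IsOpen (B k a)) ∧
    (∀ k, LocallyFinite (B k)) ∧ ∀ t, ∀ V ∈ 𝓝 t, ∃ k a, t ∈ B k a ∧ closure (B k a) ⊆ V := by
  choose B b1 b2 b3 b4 using fun k : ℕ => precise_refinement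
    (fun a : T => ball a (1 / (k + 1 : ℝ))) (fun _ => isOpen_ball)
    (eq_univ_of_forall fun t => mem_iUnion.2 ⟨t, mem_ball_self Nat.one_div_pos_of_nat⟩)
  refine ⟨B, b1, b3, fun t V hV => ?_⟩
  obtain ⟨ε, hε, h⟩ := Metric.mem_nhds_iff.1 hV
  obtain ⟨k, hk⟩ := exists_nat_one_div_lt (half_pos hε)
  obtain ⟨a, ha⟩ := mem_iUnion.1 ((b2 k).symm ▸ mem_univ t)
  refine ⟨k, a, ha, fun x hx => h (mem_ball.2 ?_)⟩
  have : dist x a ≤ 1 / (k + 1 : ℝ) := closure_ball_subset_closedBall (closure_mono (b4 k a) hx)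
  linarith [dist_triangle_right x t a, mem_ball.1 (b4 k a ha)]

theorem lf2 {X : Type*} [TopologicalSpace X] {A A' : Type*} {B : A → Set X} {O : A' → Set X}
    (hB : LocallyFinite B) (hO : LocallyFinite O) :
    LocallyFinite fun p : A × A' => B p.1 ∩ O p.2 := fun x => by
  obtain ⟨V, v1, v2⟩ := hB x
  obtain ⟨W, w1, w2⟩ := hO x
  exact ⟨V ∩ W, inter_mem v1 w1, (v2.prod w2).subset fun p ⟨y, h1, h2⟩ =>
    ⟨⟨y, h1.1, h2.1⟩, y, h1.2, h2.2⟩⟩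

theorem lfSep {X A : Type*} [TopologicalSpace X] {w : A → Set X} {H : Set X}
    (hw : LocallyFinite w) (h : ∀ a, IsOpen (w a) ∧ Disjoint (closure (w a)) H) :
    IsOpen (⋃ a, w a) ∧ Disjoint (closure (⋃ a, w a)) H :=
  ⟨isOpen_iUnion fun a => (h a).1, by
    rw [hw.closure_iUnion, disjoint_iUnion_left]
    exact fun a => (h a).2⟩

variable {Z I : Type u} [MetricSpace Z] {π : I → Z} {P : Set Z} {J : Set I → Prop}

/-- an ideal closed under countable and locally finite unions -/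
structure Id2 (π : I → Z) (P : Set Z) (J : Set I → Prop) : Prop where
  mem : ∀ i, π i ∈ P
  empty : J ∅
  mono : ∀ {A B}, A ⊆ B → J B → J A
  iUnion : ∀ A : ℕ → Set I, (∀ n, J (A n)) → J (⋃ n, A n)
  lf : ∀ (Q : Z → Set Z) (E : Z → Set I), (∀ a, IsOpen (Q a)) → LocallyFinite Q →
    (∀ a, J (E a)) → J (⋃ a, E a ∩ π ⁻¹' Q a)

theorem Id2.union (hJ : Id2 π P J) {A B : Set I} (hA : J A) (hB : J B) : J (A ∪ B) :=
  hJ.mono (B := ⋃ n : ℕ, if n = 0 then A else B)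
    (union_subset (subset_iUnion_of_subset 0 (by simp)) (subset_iUnion_of_subset 1 (by simp)))
    (hJ.iUnion _ fun n => by split_ifs <;> assumption)

/-- the test space -/
def TY (_hJ : Id2 π P J) : Type u := I ⊕ {z // z ∉ P}

variable (hJ : Id2 π P J)

def rho : TY hJ → Z := Sum.elim π Subtype.val

def pt (i : I) : TY hJ := Sum.inl i

def rem (z : Z) (h : z ∉ P) : TY hJ := Sum.inr ⟨z, h⟩

def N (O : Set Z) (E : Set I) : Set (TY hJ) := {y | rho hJ y ∈ O ∧ y ∉ pt hJ '' E}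

theorem pt_of {y : TY hJ} (h : rho hJ y ∈ P) : ∃ i, y = pt hJ i := by
  rcases y with i | z
  · exact ⟨i, rfl⟩
  · exact (z.2 h).elim

theorem not_pt {y : TY hJ} (h : rho hJ y ∉ P) (E : Set I) : y ∉ pt hJ '' E := by
  rintro ⟨i, -, rfl⟩
  exact h (hJ.mem i)

instance : TopologicalSpace (TY hJ) where
  IsOpen W := ∀ y ∈ W, rho hJ y ∉ P → ∃ O ∈ 𝓝 (rho hJ y), ∃ E, J E ∧ N hJ O E ⊆ W
  isOpen_univ := fun _ _ _ => ⟨univ, univ_mem, ∅, hJ.empty, subset_univ _⟩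
  isOpen_inter := fun s t hs ht y hy h => by
    obtain ⟨O, o, E, e, h1⟩ := hs y hy.1 h
    obtain ⟨O', o', E', e', h2⟩ := ht y hy.2 h
    exact ⟨O ∩ O', inter_mem o o', E ∪ E', hJ.union e e', fun x hx =>
      ⟨h1 ⟨hx.1.1, fun c => hx.2 (image_mono subset_union_left c)⟩,
        h2 ⟨hx.1.2, fun c => hx.2 (image_mono subset_union_right c)⟩⟩⟩
  isOpen_sUnion := fun s hs y ⟨t, ht, hy⟩ h => by
    obtain ⟨O, o, E, e, h1⟩ := hs t ht y hy h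
    exact ⟨O, o, E, e, h1.trans (subset_sUnion_of_mem ht)⟩

theorem open_N {O : Set Z} {E : Set I} (hO : IsOpen O) (hE : J E) : IsOpen (N hJ O E) :=
  fun _ hy _ => ⟨O, hO.mem_nhds hy.1, E, hE, subset_rfl⟩

theorem open_pt (E : Set I) : IsOpen (pt hJ '' E) := fun _ hy h => (not_pt hJ h E hy).elim

theorem closed_pt {E : Set I} (hE : J E) : IsClosed (pt hJ '' E) :=
  ⟨fun _ _ _ => ⟨univ, univ_mem, E, hE, fun _ hx => hx.2⟩⟩

theorem cont_rho : Continuous (rho hJ) :=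
  ⟨fun O hO _ hy _ => ⟨O, hO.mem_nhds hy, ∅, hJ.empty, fun _ hx => hx.1⟩⟩

theorem closed_N {O : Set Z} (E : Set I) (hO : IsClosed O) : IsClosed (N hJ O E) :=
  (hO.preimage (cont_rho hJ)).inter (open_pt hJ E).isClosed_compl

instance : T1Space (TY hJ) := ⟨fun y => ⟨fun x hx h => ⟨{rho hJ y}ᶜ,
  isOpen_compl_singleton.mem_nhds fun e => by
    rcases x with i | z
    · exact h (hJ.mem i)
    rcases y with j | w
    · exact h ((show rho hJ _ = _ from e) ▸ hJ.mem j)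
    · exact hx (congrArg Sum.inr (Subtype.ext e)),
  ∅, hJ.empty, fun w hw e => hw.1 (congrArg (rho hJ) e)⟩⟩⟩

/-- what the ideal has to do for closed sets over `P` -/
def Cov (π : I → Z) (P : Set Z) (J : Set I → Prop) (T : Type u) [TopologicalSpace T] : Prop :=
  ∀ S : Set (T × Z), IsClosed S → (∀ q ∈ S, q.2 ∈ P) → ∃ D : Set (T × Z) → Set I,
    (∀ W, J (D W)) ∧ ∀ t i, (t, π i) ∈ S → ∃ V ∈ 𝓝 (t, π i), ∀ W ∈ 𝓝 (t, π i), W ⊆ V → i ∈ D W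

theorem normalTY (T : Type u) [PseudoMetricSpace T] (hd : Cov π P J T) :
    NormalSpace (T × TY hJ) := by
  suffices h : ∀ H0 H1 : Set (T × TY hJ), IsClosed H0 → IsClosed H1 → Disjoint H0 H1 →
      HasSeparatingCover H0 H1 from ⟨fun s t hs ht hd =>
    hasSeparatingCovers_iff_separatedNhds.1 ⟨h s t hs ht hd, h t s ht hs hd.symm⟩⟩
  intro H0 H1 h0 h1 h01
  obtain ⟨B, b1, b2, b3⟩ := lfBase T
  obtain ⟨Q, q1, q2, q3⟩ := lfBase Z
  let gd : Set (T × TY hJ) → Set T → Set Z → Set I → Prop := fun H A O E =>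
    ∀ q ∈ H, q.1 ∈ closure A → q.2 ∉ N hJ (closure O) E
  let G : Set T → Set Z → Set I → Prop := fun A O E => gd H0 A O E ∨ gd H1 A O E
  have gm : ∀ {A A' O O' E}, A' ⊆ A → O' ⊆ O → G A O E → G A' O' E := fun a o h =>
    h.imp (fun h q c d e => h q c (closure_mono a d) ⟨closure_mono o e.1, e.2⟩)
      fun h q c d e => h q c (closure_mono a d) ⟨closure_mono o e.1, e.2⟩
  choose E e1 e2 using fun A O => show ∃ E, J E ∧ ((∃ E', J E' ∧ G A O E') → G A O E) by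
    by_cases h : ∃ E', J E' ∧ G A O E'
    · exact h.imp fun E h => ⟨h.1, fun _ => h.2⟩
    · exact ⟨∅, hJ.empty, fun c => (h c).elim⟩
  have hS : ∀ q : T × Z, (∀ A ∈ 𝓝 q.1, ∀ O ∈ 𝓝 q.2, ¬ ∃ E', J E' ∧ G A O E') → q.2 ∈ P :=
    fun q hq => not_not.1 fun hP => by
      have rect : ∀ H : Set (T × TY hJ), IsClosed H → (q.1, rem hJ q.2 hP) ∉ H →
          ∃ A ∈ 𝓝 q.1, ∃ O ∈ 𝓝 q.2, ∃ E', J E' ∧ gd H A O E' := fun H hH h => by
        obtain ⟨a, ha, b, hb, h⟩ := mem_nhds_prod_iff.1 (hH.isOpen_compl.mem_nhds h)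
        obtain ⟨W, w1, w2, w3⟩ := _root_.mem_nhds_iff.1 hb
        obtain ⟨O, o, E', e, h'⟩ := w2 _ w3 hP
        obtain ⟨A, ⟨a1, a2⟩, a3⟩ := (closed_nhds_basis q.1).mem_iff.1 ha
        obtain ⟨O', ⟨o1, o2⟩, o3⟩ := (closed_nhds_basis q.2).mem_iff.1 o
        exact ⟨A, a1, O', o1, E', e, fun r c d f => h (a := r) ⟨a3 (a2.closure_subset d),
          w1 (h' ⟨o3 (o2.closure_subset f.1), f.2⟩)⟩ c⟩
      by_cases h : (q.1, rem hJ q.2 hP) ∈ H0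
      · obtain ⟨A, a, O, o, E', e, g⟩ := rect H1 h1 (disjoint_left.1 h01 h)
        exact hq A a O o ⟨E', e, Or.inr g⟩
      · obtain ⟨A, a, O, o, E', e, g⟩ := rect H0 h0 h
        exact hq A a O o ⟨E', e, Or.inl g⟩
  obtain ⟨D, d1, d2⟩ := hd {q | ∀ A ∈ 𝓝 q.1, ∀ O ∈ 𝓝 q.2, ¬ ∃ E', J E' ∧ G A O E'}
    (isClosed_of_closure_subset fun q hq A hA O hO => by
      obtain ⟨r, r1, r2⟩ := mem_closure_iff_nhds.1 hq _
        (prod_mem_nhds (interior_mem_nhds.2 hA) (interior_mem_nhds.2 hO))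
      exact r2 A (mem_interior_iff_mem_nhds.1 r1.1) O (mem_interior_iff_mem_nhds.1 r1.2)) hS
  let D' : Set T → Set I := fun A => {i ∈ ⋃ n, ⋃ z, (E A (Q n z) ∪ D (A ×ˢ Q n z)) ∩ π ⁻¹' Q n z |
    ∀ t ∈ closure A, (t, pt hJ i) ∉ H1}
  have dJ : ∀ A, J (D' A) := fun A => hJ.mono (sep_subset _ _)
    (hJ.iUnion _ fun n => hJ.lf _ _ (q1 n) (q2 n) fun z => hJ.union (e1 _ _) (d1 _))
  refine hasSep ((range fun k : ℕ × ℕ =>
    ⋃ p : {p : T × Z // gd H1 (B k.1 p.1) (Q k.2 p.2) (E (B k.1 p.1) (Q k.2 p.2))},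
      B k.1 p.1.1 ×ˢ N hJ (Q k.2 p.1.2) (E (B k.1 p.1.1) (Q k.2 p.1.2))) ∪
    range fun k => ⋃ a, B k a ×ˢ (pt hJ '' D' (B k a)))
    ((countable_range _).union (countable_range _)) ?_ ?_
  · rintro ⟨t, y⟩ hq
    have v1 : {s | (s, y) ∉ H1} ∈ 𝓝 t := (Continuous.prodMk_left y).tendsto t
      (h1.isOpen_compl.mem_nhds (disjoint_left.1 h01 hq))
    by_cases h : ∀ A ∈ 𝓝 t, ∀ O ∈ 𝓝 (rho hJ y), ¬ ∃ E', J E' ∧ G A O E'
    · obtain ⟨i, rfl⟩ : ∃ i, y = pt hJ i := pt_of hJ (hS (t, rho hJ y) h)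
      obtain ⟨V, hV, hv⟩ := d2 t i h
      obtain ⟨a, ha, b, hb, h'⟩ := mem_nhds_prod_iff.1 hV
      obtain ⟨k, x, c1, c2⟩ := b3 t _ (inter_mem ha v1)
      obtain ⟨n, z, c3, c4⟩ := q3 _ _ hb
      exact ⟨_, Or.inr ⟨k, rfl⟩, mem_iUnion.2 ⟨x, c1, i, ⟨mem_iUnion.2 ⟨n, mem_iUnion.2 ⟨z,
        Or.inr (hv _ (prod_mem_nhds ((b1 k x).mem_nhds c1) ((q1 n z).mem_nhds c3)) fun r hr =>
          h' ⟨(c2 (subset_closure hr.1)).1, c4 (subset_closure hr.2)⟩), c3⟩⟩,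
        fun s hs => (c2 hs).2⟩, rfl⟩⟩
    · push Not at h
      obtain ⟨A, ha, O, hb, E', e, g⟩ := h
      obtain ⟨k, x, c1, c2⟩ := b3 t _ (inter_mem ha v1)
      obtain ⟨n, z, c3, c4⟩ := q3 _ _ hb
      have g' := e2 (B k x) (Q n z) ⟨E', e, gm (fun s hs => (c2 (subset_closure hs)).1)
        (subset_closure.trans c4) g⟩
      by_cases hy : y ∈ pt hJ '' E (B k x) (Q n z)
      · obtain ⟨i, hi, rfl⟩ := hy
        exact ⟨_, Or.inr ⟨k, rfl⟩, mem_iUnion.2 ⟨x, c1, i, ⟨mem_iUnion.2 ⟨n, mem_iUnion.2 ⟨z,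
          Or.inl hi, c3⟩⟩, fun s hs => (c2 hs).2⟩, rfl⟩⟩
      · exact ⟨_, Or.inl ⟨(k, n), rfl⟩, mem_iUnion.2 ⟨⟨(x, z), g'.resolve_left fun c =>
          c _ hq (subset_closure c1) ⟨subset_closure c3, hy⟩⟩, c1, c3, hy⟩⟩
  · rintro _ (⟨k, rfl⟩ | ⟨k, rfl⟩)
    · refine lfSep (((lf2 ((b2 k.1).preimage_continuous continuous_fst)
        ((q2 k.2).preimage_continuous ((cont_rho hJ).comp continuous_snd))).comp_injective
          Subtype.val_injective).subset fun p q hq => ⟨hq.1, hq.2.1⟩) fun p =>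
        ⟨(b1 _ _).prod (open_N hJ (q1 _ _) (e1 _ _)), disjoint_left.2 fun q c d => ?_⟩
      rw [closure_prod_eq] at c
      exact p.2 q d c.1 (closure_minimal (fun y hy => And.intro (subset_closure hy.1) hy.2)
        (closed_N hJ _ isClosed_closure) c.2)
    · refine lfSep ((b2 k).prod_right _) fun a =>
        ⟨(b1 _ _).prod (open_pt hJ _), disjoint_left.2 fun q c d => ?_⟩
      rw [closure_prod_eq, (closed_pt hJ (dJ _)).closure_eq] at c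
      obtain ⟨i, hi, e⟩ := c.2
      exact hi.2 q.1 c.1 (e ▸ d)

theorem univ_mem_J {X : Type v} [TopologicalSpace X] {e : X → Z} (he : IsInducing e)
    (hP : range e = P) (hd : Cov π P J PUnit) [NormalSpace (X × TY hJ)] : J univ := by
  obtain ⟨Q, q1, q2, q3⟩ := lfBase Z
  have small : ∀ A : Set I, (∀ z ∉ P, ∃ O ∈ 𝓝 z, J (A ∩ π ⁻¹' O)) → J A := fun A hA => by
    obtain ⟨D, d1, d2⟩ := hd {q | ∀ O ∈ 𝓝 q.2, ¬ J (A ∩ π ⁻¹' O)}
      (isClosed_of_closure_subset fun q hq O hO => by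
        obtain ⟨r, r1, r2⟩ := mem_closure_iff_nhds.1 hq _
          (continuous_snd.tendsto q (interior_mem_nhds.2 hO))
        exact r2 O (mem_interior_iff_mem_nhds.1 r1))
      fun q hq => not_not.1 fun h => let ⟨O, o1, o2⟩ := hA _ h; hq O o1 o2
    refine hJ.mono (B := ⋃ n, ⋃ z, (D (univ ×ˢ Q n z) ∪
      {i ∈ A ∩ π ⁻¹' Q n z | J (A ∩ π ⁻¹' Q n z)}) ∩ π ⁻¹' Q n z) (fun i hi => ?_)
      (hJ.iUnion _ fun n => hJ.lf _ _ (q1 n) (q2 n) fun z => hJ.union (d1 _) ?_)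
    · by_cases h : ∀ O ∈ 𝓝 (π i), ¬ J (A ∩ π ⁻¹' O)
      · obtain ⟨V, hV, hv⟩ := d2 ⟨⟩ i h
        obtain ⟨n, z, c3, c4⟩ := q3 _ _ ((Continuous.prodMk_right PUnit.unit).tendsto _ hV)
        exact mem_iUnion.2 ⟨n, mem_iUnion.2 ⟨z, Or.inl (hv _ (prod_mem_nhds univ_mem
          ((q1 n z).mem_nhds c3)) fun r hr => c4 (subset_closure hr.2)), c3⟩⟩
      · push Not at h
        obtain ⟨O, o1, o2⟩ := h
        obtain ⟨n, z, c3, c4⟩ := q3 _ _ o1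
        exact mem_iUnion.2 ⟨n, mem_iUnion.2 ⟨z, Or.inr ⟨⟨hi, c3⟩, hJ.mono
          (inter_subset_inter_right _ (preimage_mono (subset_closure.trans c4))) o2⟩, c3⟩⟩
    · by_cases h : J (A ∩ π ⁻¹' Q n z)
      · exact hJ.mono (sep_subset _ _) h
      · exact hJ.mono (fun i hi => (h hi.2).elim) hJ.empty
  obtain ⟨U, V, hU, hV, u1, v1, hd⟩ := normal_separation
    (isClosed_eq ((cont_rho hJ).comp continuous_snd) (he.continuous.comp continuous_fst))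
    ((open_pt hJ univ).isClosed_compl.preimage continuous_snd)
    (disjoint_left.2 fun q a b => by
      obtain ⟨i, hi⟩ := pt_of hJ (y := q.2) (hP.subset ⟨q.1, Eq.symm (mem_ofPred_eq ▸ a :)⟩)
      exact b ⟨i, trivial, hi.symm⟩)
  refine hJ.mono (B := ⋃ n, ⋃ z, {i ∈ π ⁻¹' Q n z | ∀ x, e x ∈ Q n z → (x, pt hJ i) ∈ U} ∩
    π ⁻¹' Q n z) (fun i _ => ?_) (hJ.iUnion _ fun n => hJ.lf _ _ (q1 n) (q2 n) fun z => ?_)
  · obtain ⟨x, hx⟩ := hP.symm.subset (hJ.mem i)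
    obtain ⟨G, g1, g2⟩ := mem_comap.1 (he.nhds_eq_comap x ▸ (Continuous.prodMk_left
      (pt hJ i)).tendsto x (hU.mem_nhds (u1 (a := (x, pt hJ i)) hx.symm)))
    obtain ⟨n, z, c3, c4⟩ := q3 _ _ (hx ▸ g1)
    exact mem_iUnion.2 ⟨n, mem_iUnion.2 ⟨z, ⟨c3, fun y hy => g2 (c4 (subset_closure hy))⟩, c3⟩⟩
  · rcases eq_empty_or_nonempty {i ∈ π ⁻¹' Q n z | ∀ x, e x ∈ Q n z → (x, pt hJ i) ∈ U} with
      h | ⟨j, hj, -⟩
    · exact h ▸ hJ.empty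
    obtain ⟨x, hx⟩ := hP.symm.subset (hJ.mem j)
    refine small _ fun w hw => ?_
    obtain ⟨O, o, E, e1, e2⟩ := hV.preimage (Continuous.prodMk_right x) (rem hJ w hw)
      (v1 (not_pt hJ (y := rem hJ w hw) hw _)) hw
    exact ⟨O, o, hJ.mono (fun i hi => not_not.1 fun c => disjoint_left.1 hd
      (hi.1.2 x (hx ▸ hj)) (e2 ⟨hi.2, fun ⟨k, k1, k2⟩ => c (Sum.inl_injective k2 ▸ k1)⟩)) e1⟩

end Pool.Agent.MP_4716e9_gt.CM
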